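import Pool.Agent.TH87.RVE.Fin

set_option autoImplicit false
set_option linter.unusedSectionVars false

/-!
# Counting lemmas for coloured hypomorphic graphs, and coloured graphs with at least two components

The counting of components with labels is the one of `Pool.Agent.TH87.RVE` (helper87 of the starting
library), used here with the trivial group.
-/

namespace Pool.Agent.R694.RC

open Finset Classical
open Pool.Agent.TH87.RVC (actF FF FF_inv del mem_iff_of_maps)
open Pool.Agent.TH87.RVE

variable {V : Type} [Fintype V]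

theorem card_fe (U : Finset V) (v : V) (hv : v ∈ U) (p : V → Prop) [DecidablePred p] :
    (U.filter p).card = ((U.erase v).filter p).card + if p v then 1 else 0 := by
  conv_lhs => rw [← insert_erase hv, filter_insert]
  split_ifs with h
  · rw [card_insert_of_notMem (by simp)]
  · simp

theorem card_mv (U : Finset V) (π : Equiv.Perm V) (v : V) (hfix : π v = v) (hm : ∀ x ∈ U, π x ∈ U)
    (p q : V → Prop) [DecidablePred p] [DecidablePred q]
    (h : ∀ x ∈ U, x ≠ v → (q (π x) ↔ p x)) :
    ((U.erase v).filter q).card = ((U.erase v).filter p).card := by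
  symm
  apply Finset.card_equiv π
  intro i
  have hmi := mem_iff_of_maps π U hm i
  have hne : π i ≠ v ↔ i ≠ v := by
    constructor
    · intro h1 h2
      exact h1 (by rw [h2, hfix])
    · intro h1 h2
      exact h1 (π.injective (by rw [h2, hfix]))
  rw [mem_filter, mem_filter, mem_erase, mem_erase, hmi, hne]
  constructor
  · rintro ⟨⟨h1, h2⟩, h3⟩
    exact ⟨⟨h1, h2⟩, (h i h2 h1).mpr h3⟩
  · rintro ⟨⟨h1, h2⟩, h3⟩
    exact ⟨⟨h1, h2⟩, (h i h2 h1).mp h3⟩

/-- predicates which correspond to each other on the cards correspond to each other -/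
theorem k1 (U : Finset V) (hU : 2 ≤ U.card) (π : V → Equiv.Perm V) (hfix : ∀ v, π v v = v)
    (hm : ∀ v ∈ U, ∀ x ∈ U, π v x ∈ U) (p q : V → Prop)
    (h : ∀ v ∈ U, ∀ x ∈ U, x ≠ v → (q (π v x) ↔ p x)) : ∀ v ∈ U, (q v ↔ p v) := by
  have key : ∀ v ∈ U, (U.filter p).card + (if q v then 1 else 0) =
      (U.filter q).card + (if p v then 1 else 0) := by
    intro v hv
    rw [card_fe U v hv p, card_fe U v hv q, card_mv U (π v) v (hfix v) (hm v hv) p q (h v hv)]
    ring
  have hsum : ∑ v ∈ U, ((U.filter p).card + (if q v then 1 else 0)) =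
      ∑ v ∈ U, ((U.filter q).card + (if p v then 1 else 0)) := sum_congr rfl key
  rw [sum_add_distrib, sum_add_distrib, sum_const, sum_const, ← card_filter, ← card_filter,
    smul_eq_mul, smul_eq_mul] at hsum
  have hPQ : (U.filter p).card = (U.filter q).card := by
    have h1 : ((U.card : ℤ) - 1) * (((U.filter p).card : ℤ) - (U.filter q).card) = 0 := by
      have : ((U.card : ℤ)) * (U.filter p).card + (U.filter q).card =
          U.card * (U.filter q).card + (U.filter p).card := by exact_mod_cast hsum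
      linarith
    rcases mul_eq_zero.mp h1 with h2 | h2
    · omega
    · omega
  intro v hv
  have := key v hv
  rw [hPQ] at this
  by_cases h1 : q v <;> by_cases h2 : p v <;> simp [h1, h2] at this ⊢

/-- the degrees are reconstructible -/
theorem k2 (U : Finset V) (hU : 3 ≤ U.card) (π : V → Equiv.Perm V) (hfix : ∀ v, π v v = v)
    (hm : ∀ v ∈ U, ∀ x ∈ U, π v x ∈ U) (R S : V → V → Prop)
    (hRs : ∀ x y, R x y → R y x) (hSs : ∀ x y, S x y → S y x) (hRi : ∀ x, ¬ R x x)
    (hSi : ∀ x, ¬ S x x)
    (h : ∀ v ∈ U, ∀ x ∈ U, ∀ y ∈ U, x ≠ v → y ≠ v → (S (π v x) (π v y) ↔ R x y)) :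
    ∀ v ∈ U, (U.filter (S v)).card = (U.filter (R v)).card := by
  have tot : ∀ (Q : V → V → Prop), (∀ x y, Q x y → Q y x) → (∀ x, ¬ Q x x) → ∀ v ∈ U,
      ∑ x ∈ U, (U.filter (Q x)).card = 2 * (U.filter (Q v)).card +
        ∑ x ∈ U.erase v, ((U.erase v).filter (Q x)).card := by
    intro Q hs hi v hv
    rw [← add_sum_erase U _ hv]
    have e1 : ∀ x ∈ U.erase v, (U.filter (Q x)).card =
        ((U.erase v).filter (Q x)).card + if Q v x then 1 else 0 := by
      intro x hx
      rw [card_fe U v hv]
      congr 1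
      by_cases hq : Q v x
      · rw [if_pos hq, if_pos (hs _ _ hq)]
      · rw [if_neg hq, if_neg (fun h => hq (hs _ _ h))]
    rw [sum_congr rfl e1, sum_add_distrib]
    have e2 : ∑ x ∈ U.erase v, (if Q v x then 1 else 0) = (U.filter (Q v)).card := by
      rw [card_fe U v hv, if_neg (hi v), add_zero, card_filter]
    rw [e2]; ring
  have heq : ∀ v ∈ U, ∑ x ∈ U.erase v, ((U.erase v).filter (R x)).card =
      ∑ x ∈ U.erase v, ((U.erase v).filter (S x)).card := by
    intro v hv
    apply Finset.sum_equiv (π v)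
    · intro i
      have hmi := mem_iff_of_maps (π v) U (hm v hv) i
      rw [mem_erase, mem_erase, hmi]
      have : π v i ≠ v ↔ i ≠ v := by
        constructor
        · intro h1 h2
          exact h1 (by rw [h2, hfix])
        · intro h1 h2
          exact h1 ((π v).injective (by rw [h2, hfix]))
      rw [this]
    · intro i hi
      have hi' := mem_erase.mp hi
      exact (card_mv U (π v) v (hfix v) (hm v hv) (R i) (S (π v i))
        (fun x hx hxv => h v hv i hi'.2 x hx hi'.1 hxv)).symm
  have key : ∀ v ∈ U, ∑ x ∈ U, (U.filter (R x)).card + 2 * (U.filter (S v)).card =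
      ∑ x ∈ U, (U.filter (S x)).card + 2 * (U.filter (R v)).card := by
    intro v hv
    have h1 := tot R hRs hRi v hv
    have h2 := tot S hSs hSi v hv
    have h3 := heq v hv
    omega
  have hsum : ∑ v ∈ U, (∑ x ∈ U, (U.filter (R x)).card + 2 * (U.filter (S v)).card) =
      ∑ v ∈ U, (∑ x ∈ U, (U.filter (S x)).card + 2 * (U.filter (R v)).card) := sum_congr rfl key
  rw [sum_add_distrib, sum_add_distrib, sum_const, sum_const, ← mul_sum, ← mul_sum,
    smul_eq_mul, smul_eq_mul] at hsum
  set TR := ∑ x ∈ U, (U.filter (R x)).card with hTR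
  set TS := ∑ x ∈ U, (U.filter (S x)).card with hTS
  have hT : TR = TS := by
    have h1 : ((U.card : ℤ) - 2) * ((TR : ℤ) - TS) = 0 := by
      have : ((U.card : ℤ)) * TR + 2 * TS = U.card * TS + 2 * TR := by exact_mod_cast hsum
      linarith
    rcases mul_eq_zero.mp h1 with h2 | h2 <;> omega
  intro v hv
  have := key v hv
  omega

/-- coloured graphs with at least two components -/
theorem comp_two {G H : SimpleGraph V} {π : V → Equiv.Perm V} (U : Finset V) (hU : 3 ≤ U.card)
    (hfix : ∀ v, π v v = v) (hm : ∀ v ∈ U, ∀ x ∈ U, π v x ∈ U)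
    (hadj : ∀ v ∈ U, ∀ x ∈ U, ∀ y ∈ U, x ≠ v → y ≠ v → (H.Adj (π v x) (π v y) ↔ G.Adj x y))
    (N : V → Finset V) (hN : ∀ v ∈ U, ∀ x ∈ U, N (π v x) = N x)
    (h2 : 2 ≤ (comps G U).card) :
    ∃ σ : Equiv.Perm V, (∀ x ∈ U, σ x ∈ U) ∧
      (∀ x ∈ U, ∀ y ∈ U, (H.Adj (σ x) (σ y) ↔ G.Adj x y)) ∧ ∀ x ∈ U, N (σ x) = N x := by
  have hmi : ∀ v ∈ U, ∀ x, π v x ∈ U ↔ x ∈ U := fun v hv x =>
    mem_iff_of_maps (π v) U (hm v hv) x
  have hdeck : ∀ v ∈ U, ∀ y : Typ V V, wt H N (U.erase v) y = wt G N (U.erase v) y := by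
    intro i hi y
    have h := wt_map G H N N (U.erase i) (U.erase i) (π i) (1 : Equiv.Perm V) (by
      intro x
      rw [mem_erase, mem_erase, hmi i hi]
      have : π i x ≠ i ↔ x ≠ i := by
        rw [← (π i).injective.ne_iff (x := x), hfix]
      rw [this]) (by
      intro x y hx hy
      exact hadj i hi x (mem_erase.mp hx).2 y (mem_erase.mp hy).2 (mem_erase.mp hx).1
        (mem_erase.mp hy).1) (by
      intro x hx
      rw [map_one]
      exact hN i hi x (mem_erase.mp hx).2) y
    rw [map_one] at h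
    exact h
  have hcardEq : ∀ v ∈ U, (comps H (U.erase v)).card = (comps G (U.erase v)).card := by
    intro v hv
    rw [← sum_wt_card H N, ← sum_wt_card G N]
    exact sum_congr rfl (fun y _ => hdeck v hv y)
  have hUne : U.Nonempty := card_pos.mp (by omega)
  have hH2 : 2 ≤ (comps H U).card := by
    by_contra hcon
    obtain ⟨v, hv, h1⟩ := exists_noncut H U hUne (by omega)
    rw [hcardEq v hv] at h1
    -- `v` is isolated in `G`
    have hD := comp_mem_comps G U v hv
    have hvD := comp_self G U v hv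
    have h3 := comps_eq_union G U _ hD
    have h4 := comps_erase G U _ hD v hvD
    have h5 : (comps G U).card ≤ 1 + (comps G (U \ comp G U v)).card := by
      rw [h3]
      exact (card_union_le _ _).trans (by rw [card_singleton])
    have hdis : Disjoint (comps G ((comp G U v).erase v)) (comps G (U \ comp G U v)) := by
      apply comps_disjoint
      rw [Finset.disjoint_left]
      intro x hx hx'
      exact (mem_sdiff.mp hx').2 (mem_erase.mp hx).2
    rw [h4, card_union_of_disjoint hdis] at h1
    have h6 : comps G ((comp G U v).erase v) = ∅ := by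
      rw [← card_eq_zero]; omega
    have h7 : (comp G U v).erase v = ∅ := by
      by_contra hne
      obtain ⟨x, hx⟩ := nonempty_iff_ne_empty.mpr hne
      have := comp_mem_comps G _ x hx
      rw [h6] at this
      exact absurd this (notMem_empty _)
    have hiso : ∀ y ∈ U, ¬ G.Adj v y := by
      intro y hy hvy
      have : y ∈ comp G U v := comp_closed G U _ hD v y hvD hy hvy
      have : y ∈ (comp G U v).erase v := mem_erase.mpr ⟨hvy.ne', this⟩
      rw [h7] at this
      exact absurd this (notMem_empty _)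
    have hdeg := k2 U hU π hfix hm G.Adj H.Adj (fun _ _ h => h.symm) (fun _ _ h => h.symm)
      (fun x => G.irrefl) (fun x => H.irrefl) hadj v hv
    have h8 : U.filter (G.Adj v) = ∅ := by
      rw [filter_eq_empty_iff]
      intro y hy
      exact hiso y hy
    rw [h8, card_empty, card_eq_zero, filter_eq_empty_iff] at hdeg
    -- `v` is isolated in `H`
    obtain ⟨w, hw, hwv⟩ : ∃ w ∈ U, w ≠ v := by
      by_contra hno
      push Not at hno
      have : U ⊆ {v} := fun x hx => mem_singleton.mpr (hno x hx)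
      have := card_le_card this
      rw [card_singleton] at this
      omega
    have h9 : comp H U w = comp H U v :=
      (card_le_one.mp (by omega : (comps H U).card ≤ 1)) _ (comp_mem_comps H U w hw) _
        (comp_mem_comps H U v hv)
    have h10 : w ∈ comp H U v := by rw [← h9]; exact comp_self H U w hw
    have h11 := (rch_closed H U {v} (by
      intro x hx y hy hxy
      rw [mem_singleton] at hx
      subst hx
      exact absurd hxy (hdeg hy)) (mem_singleton.mpr rfl) ((mem_comp H U v w).mp h10).2).1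
    exact hwv (mem_singleton.mp h11)
  -- equal weights
  set w := wt G N U with hw
  set w' := wt H N U with hw'
  let φ : Unit →* Equiv.Perm (Typ V V) := 1
  have hφ : ∀ γ x, φ γ x = x := fun _ _ => rfl
  have hk := kel_main φ sz II PP card_II (fun γ y => by rw [hφ])
    (fun γ y f => by
      simp only [hφ]) sum_PP w w'
    (fun y hy => wt_zero G N U y hy) (fun y hy => wt_zero H N U y hy)
    (by rw [hw, hw', sum_wt_sz, sum_wt_sz])
    (by
      intro c
      rw [hw, hw', TT_eq, TT_eq]
      apply sum_congr rfl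
      intro v hv
      congr 1
      funext y
      exact (hdeck v hv y).symm) 2 (by rw [hw, sum_wt_card]; exact h2)
      (by rw [hw', sum_wt_card]; exact hH2)
  have hww : ∀ x, w x = w' x := by
    intro x
    have h1 := hk (e1 x) (by rw [sum_e1]; norm_num)
    rw [FF_e1, FF_e1] at h1
    simp only [hφ, univ_unique, sum_singleton] at h1
    exact_mod_cast h1
  -- the isomorphism
  let ι := {D // D ∈ comps G U}
  let ι' := {D // D ∈ comps H U}
  have cardG : ∀ x, Fintype.card {j : ι // mk ((j : Finset V), G, N) = x} = wt G N U x := by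
    intro x
    unfold wt
    rw [← Fintype.card_coe]
    apply Fintype.card_congr
    exact ⟨fun j => ⟨j.1.1, mem_filter.mpr ⟨j.1.2, j.2⟩⟩,
      fun j => ⟨⟨j.1, (mem_filter.mp j.2).1⟩, (mem_filter.mp j.2).2⟩,
      fun _ => rfl, fun _ => rfl⟩
  have cardH : ∀ x, Fintype.card {j : ι' // mk ((j : Finset V), H, N) = x} = wt H N U x := by
    intro x
    unfold wt
    rw [← Fintype.card_coe]
    apply Fintype.card_congr
    exact ⟨fun j => ⟨j.1.1, mem_filter.mpr ⟨j.1.2, j.2⟩⟩,
      fun j => ⟨⟨j.1, (mem_filter.mp j.2).1⟩, (mem_filter.mp j.2).2⟩,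
      fun _ => rfl, fun _ => rfl⟩
  have hfib : ∀ c : Typ V V,
      Nonempty ({j : ι // mk ((j : Finset V), G, N) = c} ≃
        {j : ι' // mk ((j : Finset V), H, N) = c}) := by
    intro c
    refine ⟨Fintype.equivOfCardEq ?_⟩
    rw [cardG, cardH]
    exact hww c
  let tG : ι → Typ V V := fun j => mk ((j : Finset V), G, N)
  let tH : ι' → Typ V V := fun j => mk ((j : Finset V), H, N)
  let β : ι ≃ ι' := Equiv.ofFiberEquiv (f := tG) (g := tH) (fun c => (hfib c).some)
  have hβ : ∀ j : ι, mk ((β j : Finset V), H, N) = mk ((j : Finset V), G, N) :=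
    fun j => Equiv.ofFiberEquiv_map (f := tG) (g := tH) _ j
  have hβ2 : ∀ j : ι, RelA 1 ((j : Finset V), G, N) ((β j : Finset V), H, N) := fun j =>
    (mk_eq _ _).mp (hβ j).symm
  choose σ hσ1 hσ2 hσ3 using hβ2
  simp only at hσ1 hσ2 hσ3
  let cj : ∀ x, x ∈ U → ι := fun x hx => ⟨comp G U x, comp_mem_comps G U x hx⟩
  have hcj : ∀ x hx, x ∈ ((cj x hx : ι) : Finset V) := fun x hx => comp_self G U x hx
  let σ0 : V → V := fun x => if h : x ∈ U then σ (cj x h) x else x
  have hσL : ∀ x (h : x ∈ U), σ0 x = σ (cj x h) x := fun x h => by simp [σ0, h]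
  have hσR : ∀ x, x ∉ U → σ0 x = x := fun x h => by simp [σ0, h]
  have hσm : ∀ x (h : x ∈ U), σ0 x ∈ ((β (cj x h) : ι') : Finset V) := fun x h => by
    rw [hσL x h, hσ1]; exact hcj x h
  have hσL' : ∀ x, x ∈ U → σ0 x ∈ U := fun x h => comps_sub H U _ (β (cj x h)).2 (hσm x h)
  have hσR' : ∀ x, x ∉ U → σ0 x ∉ U := fun x h => by
    rw [hσR x h]; exact h
  have hsame : ∀ x y (hx : x ∈ U) (hy : y ∈ U), σ0 y ∈ ((β (cj x hx) : ι') : Finset V) →
      cj x hx = cj y hy := by
    intro x y hx hy h
    apply β.injective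
    apply Subtype.ext
    rw [← comp_of_mem H U _ (β (cj x hx)).2 _ h, ← comp_of_mem H U _ (β (cj y hy)).2 _ (hσm y hy)]
  have hinj : Function.Injective σ0 := by
    intro x y hxy
    by_cases hx : x ∈ U
    · by_cases hy : y ∈ U
      · have h1 := hsame x y hx hy (hxy ▸ hσm x hx)
        rw [hσL x hx, hσL y hy, h1] at hxy
        exact (σ _).injective hxy
      · exact absurd (hxy ▸ hσL' x hx) (hσR' y hy)
    · by_cases hy : y ∈ U
      · exact absurd (hxy ▸ hσL' y hy) (hσR' x hx)
      · rw [hσR x hx, hσR y hy] at hxy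
        exact hxy
  let τ : Equiv.Perm V := Equiv.ofBijective σ0 (Finite.injective_iff_bijective.mp hinj)
  have hτ : ∀ x, τ x = σ0 x := fun x => rfl
  refine ⟨τ, fun x hx => hσL' x hx, fun x hx y hy => ?_, fun x hx => ?_⟩
  · rw [hτ, hτ]
    by_cases hc : cj x hx = cj y hy
    · rw [hσL x hx, hσL y hy, ← hc]
      exact hσ2 (cj x hx) x y (hcj x hx) (hc ▸ hcj y hy)
    · constructor
      · intro h
        exact absurd (hsame x y hx hy (comp_closed H U _ (β (cj x hx)).2 _ _ (hσm x hx)
          (hσL' y hy) h)) hc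
      · intro h
        exfalso
        apply hc
        have h1 := comp_closed G U _ (cj x hx).2 x y (hcj x hx) hy h
        apply Subtype.ext
        exact (comp_of_mem G U _ (cj x hx).2 y h1).symm
  · rw [hτ, hσL x hx]
    have := hσ3 (cj x hx) x (hcj x hx)
    rw [map_one] at this
    exact this

end Pool.Agent.R694.RC
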