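import Pool.Agent.R694.RC.Kel2

set_option autoImplicit false
set_option linter.unusedSectionVars false

/-!
# Colourings obtained by splitting at gaps and by freezing rigid sets
-/

namespace Pool.Agent.R694.RC

open Finset Classical
open Pool.Agent.H234RC (Hypo NonIso Reconstructible)
open Pool.Agent.TH87.RVC (mem_iff_of_maps)
open Pool.Agent.TH87.RVE

variable {V : Type} [Fintype V]

/-- The number of the neighbours of `x` in `U` with a colour in `J`. -/
noncomputable def nbrs (G : SimpleGraph V) (U : Finset V) (c : V → ℕ) (J : Set ℕ) (x : V) : ℕ :=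
  (U.filter (fun y => c y ∈ J ∧ G.Adj x y)).card

/-- `Tame G U c`: the colouring `c` of the set `U` of vertices of `G` is obtained from the constant
colouring of the set of all vertices by steps of the following two kinds.
*Split*: if no vertex of colour `i` in `U` has exactly `e` neighbours in `U` with colours in the set
`J`, then the vertices of colour `i` in `U` with more than `e` such neighbours get a new colour `k`.
*Freeze*: if `A ⊆ U` is a union of colour classes of `U`, the graph induced by `A` has no nontrivial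
automorphism which preserves the colours, and `U \ A` has at least three elements, then `U` is
replaced by `U \ A`, with the partition according to the old colour and the neighbours in `A`. -/
inductive Tame (G : SimpleGraph V) : Finset V → (V → ℕ) → Prop
  | start : Tame G univ (fun _ => 0)
  | split (U : Finset V) (c : V → ℕ) (i e k : ℕ) (J : Set ℕ) (h : Tame G U c)
      (hgap : ∀ x ∈ U, c x = i → nbrs G U c J x ≠ e) (hk : ∀ x ∈ U, c x ≠ k) :
      Tame G U (fun x => if c x = i ∧ e < nbrs G U c J x then k else c x)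
  | freeze (U A : Finset V) (c c' : V → ℕ) (h : Tame G U c) (hA : A ⊆ U) (h3 : 3 ≤ (U \ A).card)
      (hcl : ∀ x ∈ A, ∀ y ∈ U \ A, c x ≠ c y)
      (hrig : ∀ σ : Equiv.Perm V, (∀ x ∈ A, σ x ∈ A ∧ c (σ x) = c x) →
        (∀ x ∈ A, ∀ y ∈ A, (G.Adj (σ x) (σ y) ↔ G.Adj x y)) → ∀ x ∈ A, σ x = x)
      (hc : ∀ x ∈ U \ A, ∀ y ∈ U \ A,
        (c' x = c' y ↔ c x = c y ∧ ∀ a ∈ A, (G.Adj x a ↔ G.Adj y a))) :
      Tame G (U \ A) c'

/-- what the card isomorphisms of hypomorphic graphs do with a tame colouring -/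
structure Inv (G H : SimpleGraph V) (π : V → Equiv.Perm V) (U : Finset V) (c : V → ℕ) : Prop where
  three : 3 ≤ U.card
  same : ∀ v ∈ U, ∀ w ∈ U, ∀ a, a ∉ U → π v a = π w a
  maps : ∀ v ∈ U, ∀ x ∈ U, π v x ∈ U
  col : ∀ v ∈ U, ∀ x ∈ U, c (π v x) = c x
  out : ∀ v ∈ U, ∀ x ∈ U, ∀ a, a ∉ U → (H.Adj x (π v a) ↔ G.Adj x a)
  uni : ∀ x ∈ U, ∀ y ∈ U, c x = c y → ∀ a, a ∉ U → (G.Adj x a ↔ G.Adj y a)

variable {G H : SimpleGraph V} {π : V → Equiv.Perm V} {U : Finset V} {c : V → ℕ}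

theorem inv_start (hV : 3 ≤ Fintype.card V) : Inv G H π univ (fun _ => 0) where
  three := by rwa [card_univ]
  same := fun v _ w _ a ha => absurd (mem_univ a) ha
  maps := fun v _ x _ => mem_univ _
  col := fun v _ x _ => rfl
  out := fun v _ x _ a ha => absurd (mem_univ a) ha
  uni := fun x _ y _ _ a ha => absurd (mem_univ a) ha

theorem nbrs_eq (hH : Hypo G H π) (hI : Inv G H π U c) (J : Set ℕ) (v : V) (hv : v ∈ U) :
    nbrs H U c J v = nbrs G U c J v := by
  set i := c v with hi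
  have h := k2 U hI.three π hH.fix hI.maps
    (fun x y => G.Adj x y ∧ ((c x = i ∧ c y ∈ J) ∨ (c x ∈ J ∧ c y = i)))
    (fun x y => H.Adj x y ∧ ((c x = i ∧ c y ∈ J) ∨ (c x ∈ J ∧ c y = i)))
    (fun x y h => ⟨h.1.symm, by tauto⟩) (fun x y h => ⟨h.1.symm, by tauto⟩)
    (fun x h => G.irrefl h.1) (fun x h => H.irrefl h.1)
    (fun v hv x hx y hy hxv hyv => by
      rw [hH.adj v x y hxv hyv, hI.col v hv x hx, hI.col v hv y hy]) v hv
  have e : ∀ K : SimpleGraph V, nbrs K U c J v = (U.filter (fun y => K.Adj v y ∧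
      ((c v = i ∧ c y ∈ J) ∨ (c v ∈ J ∧ c y = i)))).card := by
    intro K
    unfold nbrs
    congr 1
    ext y
    rw [mem_filter, mem_filter]
    constructor
    · rintro ⟨h0, h1, h2⟩
      exact ⟨h0, h2, Or.inl ⟨hi.symm, h1⟩⟩
    · rintro ⟨h0, h1, h2 | h2⟩
      · exact ⟨h0, h2.2, h1⟩
      · exact ⟨h0, by rw [h2.2]; exact h2.1, h1⟩
  rw [e H, e G]
  convert h

theorem nbrs_step (hH : Hypo G H π) (hI : Inv G H π U c) (J : Set ℕ) (v : V) (hv : v ∈ U) (x : V)
    (hx : x ∈ U) (hxv : x ≠ v) :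
    nbrs G U c J (π v x) + (if c v ∈ J ∧ G.Adj x v then 1 else 0) =
      nbrs G U c J x + (if c v ∈ J ∧ H.Adj (π v x) v then 1 else 0) := by
  rw [← nbrs_eq hH hI J (π v x) (hI.maps v hv x hx)]
  unfold nbrs
  rw [card_fe U v hv, card_fe U v hv,
    card_mv U (π v) v (hH.fix v) (hI.maps v hv) (fun y => c y ∈ J ∧ G.Adj x y)
      (fun y => c y ∈ J ∧ H.Adj (π v x) y) (fun y hy hyv => by
        rw [hI.col v hv y hy, hH.adj v x y hxv hyv])]
  ring

theorem inv_split (hH : Hypo G H π) (hI : Inv G H π U c) (i e k : ℕ) (J : Set ℕ)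
    (hgap : ∀ x ∈ U, c x = i → nbrs G U c J x ≠ e) (hk : ∀ x ∈ U, c x ≠ k) :
    Inv G H π U (fun x => if c x = i ∧ e < nbrs G U c J x then k else c x) where
  three := hI.three
  same := hI.same
  maps := hI.maps
  out := hI.out
  col := by
    intro v hv x hx
    by_cases hxv : x = v
    · rw [hxv, hH.fix]
    · show (if c (π v x) = i ∧ e < nbrs G U c J (π v x) then k else c (π v x)) =
        (if c x = i ∧ e < nbrs G U c J x then k else c x)
      rw [hI.col v hv x hx]
      by_cases hi : c x = i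
      · have h1 := nbrs_step hH hI J v hv x hx hxv
        have h2 := hgap x hx hi
        have h3 := hgap (π v x) (hI.maps v hv x hx) (by rw [hI.col v hv x hx, hi])
        have h4 : e < nbrs G U c J (π v x) ↔ e < nbrs G U c J x := by
          split_ifs at h1 <;> omega
        simp only [h4]
      · simp [hi]
  uni := by
    intro x hx y hy hxy
    apply hI.uni x hx y hy
    split_ifs at hxy with h1 h2 h2
    · rw [h1.1, h2.1]
    · exact absurd hxy.symm (hk y hy)
    · exact absurd hxy (hk x hx)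
    · exact hxy

theorem inv_freeze (hH : Hypo G H π) (hI : Inv G H π U c) (A : Finset V) (c' : V → ℕ)
    (hA : A ⊆ U) (h3 : 3 ≤ (U \ A).card) (hcl : ∀ x ∈ A, ∀ y ∈ U \ A, c x ≠ c y)
    (hrig : ∀ σ : Equiv.Perm V, (∀ x ∈ A, σ x ∈ A ∧ c (σ x) = c x) →
      (∀ x ∈ A, ∀ y ∈ A, (G.Adj (σ x) (σ y) ↔ G.Adj x y)) → ∀ x ∈ A, σ x = x)
    (hc : ∀ x ∈ U \ A, ∀ y ∈ U \ A,
      (c' x = c' y ↔ c x = c y ∧ ∀ a ∈ A, (G.Adj x a ↔ G.Adj y a))) :
    Inv G H π (U \ A) c' := by
  have hU : ∀ x, x ∈ U \ A → x ∈ U := fun x hx => (mem_sdiff.mp hx).1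
  have hnA : ∀ x, x ∈ U \ A → x ∉ A := fun x hx => (mem_sdiff.mp hx).2
  have hne : ∀ v ∈ U \ A, ∀ x ∈ A, x ≠ v := fun v hv x hx e => hnA v hv (e ▸ hx)
  have maps : ∀ v ∈ U \ A, ∀ x ∈ U \ A, π v x ∈ U \ A := by
    intro v hv x hx
    refine mem_sdiff.mpr ⟨hI.maps v (hU v hv) x (hU x hx), fun h => ?_⟩
    exact hcl _ h x hx (hI.col v (hU v hv) x (hU x hx))
  have mapsA : ∀ v ∈ U \ A, ∀ x ∈ A, π v x ∈ A := by
    intro v hv x hx
    by_contra h
    exact hcl x hx _ (mem_sdiff.mpr ⟨hI.maps v (hU v hv) x (hA hx), h⟩)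
      (hI.col v (hU v hv) x (hA hx)).symm
  have mapsA' : ∀ v ∈ U \ A, ∀ x ∈ A, (π v).symm x ∈ A := by
    intro v hv x hx
    have := mem_iff_of_maps (π v) A (mapsA v hv) ((π v).symm x)
    rw [Equiv.apply_symm_apply] at this
    exact this.mp hx
  have same : ∀ v ∈ U \ A, ∀ w ∈ U \ A, ∀ a, a ∉ U \ A → π v a = π w a := by
    intro v hv w hw a ha
    by_cases haU : a ∈ U
    · have haA : a ∈ A := by
        by_contra h
        exact ha (mem_sdiff.mpr ⟨haU, h⟩)
      have h1 := hrig ((π v).trans (π w).symm) (by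
        intro x hx
        rw [Equiv.trans_apply]
        have h2 := mapsA' w hw _ (mapsA v hv x hx)
        refine ⟨h2, ?_⟩
        have h4 := hI.col w (hU w hw) _ (hA h2)
        rw [Equiv.apply_symm_apply] at h4
        rw [← h4, hI.col v (hU v hv) x (hA hx)]) (by
        intro x hx y hy
        rw [Equiv.trans_apply, Equiv.trans_apply]
        have h2 := mapsA' w hw _ (mapsA v hv x hx)
        have h4 := mapsA' w hw _ (mapsA v hv y hy)
        rw [← hH.adj w _ _ (hne w hw _ h2) (hne w hw _ h4), Equiv.apply_symm_apply,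
          Equiv.apply_symm_apply]
        exact hH.adj v x y (hne v hv x hx) (hne v hv y hy)) a haA
      rw [Equiv.trans_apply, Equiv.symm_apply_eq] at h1
      exact h1
    · exact hI.same v (hU v hv) w (hU w hw) a haU
  have out : ∀ v ∈ U \ A, ∀ x ∈ U \ A, ∀ a, a ∉ U \ A → (H.Adj x (π v a) ↔ G.Adj x a) := by
    intro v hv x hx a ha
    by_cases haU : a ∈ U
    · have haA : a ∈ A := by
        by_contra h
        exact ha (mem_sdiff.mpr ⟨haU, h⟩)
      exact k1 (U \ A) (by omega) π hH.fix maps (fun x => G.Adj x a) (fun x => H.Adj x (π v a))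
        (by
          intro u hu y hy hyu
          rw [same v hv u hu a ha]
          exact hH.adj u y a hyu (hne u hu a haA)) x hx
    · exact hI.out v (hU v hv) x (hU x hx) a haU
  refine ⟨h3, same, maps, ?_, out, ?_⟩
  · intro v hv x hx
    by_cases hxv : x = v
    · rw [hxv, hH.fix]
    · rw [hc _ (maps v hv x hx) x hx]
      refine ⟨hI.col v (hU v hv) x (hU x hx), fun a ha => ?_⟩
      rw [← out v hv _ (maps v hv x hx) a (fun h => hnA a h ha)]
      exact hH.adj v x a hxv (hne v hv a ha)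
  · intro x hx y hy hxy a ha
    obtain ⟨h1, h2⟩ := (hc x hx y hy).mp hxy
    by_cases haU : a ∈ U
    · have haA : a ∈ A := by
        by_contra h
        exact ha (mem_sdiff.mpr ⟨haU, h⟩)
      exact h2 a haA
    · exact hI.uni x (hU x hx) y (hU y hy) h1 a haU

theorem inv_of_tame (hV : 3 ≤ Fintype.card V) (hH : Hypo G H π) (h : Tame G U c) :
    Inv G H π U c := by
  induction h with
  | start => exact inv_start hV
  | split U c i e k J h hgap hk ih => exact inv_split hH ih i e k J hgap hk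
  | freeze U A c c' h hA h3 hcl hrig hc ih => exact inv_freeze hH ih A c' hA h3 hcl hrig hc

/-- the first criterion -/
theorem fin1 (hH : Hypo G H π) (hI : Inv G H π U c) (v : V) (hv : v ∈ U)
    (hb : ∀ i : ℕ, ∃ J : Set ℕ, c v ∈ J ∧ ∀ x ∈ U, ∀ y ∈ U, y ≠ v → c x = i → c y = i →
      G.Adj v x → ¬ G.Adj v y → nbrs G U c J x ≠ nbrs G U c J y + 1) : ¬ NonIso G H := by
  have key : ∀ x ∈ U, x ≠ v → (H.Adj (π v x) v ↔ G.Adj x v) := by
    intro x0 hx0 hx0v
    obtain ⟨J, hJ, hb⟩ := hb (c x0)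
    have st : ∀ x ∈ U, x ≠ v → nbrs G U c J (π v x) + (if G.Adj x v then 1 else 0) =
        nbrs G U c J x + (if H.Adj (π v x) v then 1 else 0) := by
      intro x hx hxv
      have := nbrs_step hH hI J v hv x hx hxv
      simpa [hJ] using this
    have hπ : ∀ x, x ≠ v → π v x ≠ v := by
      intro x hx h
      exact hx ((π v).injective (by rw [h, hH.fix]))
    have s0 := st x0 hx0 hx0v
    by_contra hcon
    by_cases hG : G.Adj x0 v
    · have hHn : ¬ H.Adj (π v x0) v := fun h => hcon ⟨fun _ => hG, fun _ => h⟩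
      rw [if_pos hG, if_neg hHn] at s0
      set s := nbrs G U c J (π v x0) with hs
      have hm : ∀ y ∈ U.filter (fun y => y ≠ v ∧ c y = c x0 ∧ nbrs G U c J y ≤ s),
          π v y ∈ U.filter (fun y => y ≠ v ∧ c y = c x0 ∧ nbrs G U c J y ≤ s) := by
        intro y hy
        obtain ⟨hyU, hyv, hyc, hys⟩ := mem_filter.mp hy
        refine mem_filter.mpr ⟨hI.maps v hv y hyU, hπ y hyv, by rw [hI.col v hv y hyU, hyc], ?_⟩
        by_contra hlt
        have s1 := st y hyU hyv
        have hyG : ¬ G.Adj y v := by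
          intro h
          rw [if_pos h] at s1
          split_ifs at s1 <;> omega
        rw [if_neg hyG] at s1
        have h5 : nbrs G U c J y = s := by
          split_ifs at s1 <;> omega
        exact hb x0 hx0 y hyU hyv rfl hyc hG.symm (fun h => hyG h.symm) (by omega)
      have h6 := mem_iff_of_maps (π v) _ hm x0
      have h7 := h6.mp (mem_filter.mpr ⟨hI.maps v hv x0 hx0, hπ x0 hx0v, hI.col v hv x0 hx0,
        le_refl s⟩)
      have h8 := (mem_filter.mp h7).2.2.2
      omega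
    · have hHp : H.Adj (π v x0) v := by
        by_contra h
        exact hcon ⟨fun h' => absurd h' h, fun h' => absurd h' hG⟩
      rw [if_neg hG, if_pos hHp] at s0
      set s := nbrs G U c J x0 with hs
      have hm : ∀ y ∈ U.filter (fun y => y ≠ v ∧ c y = c x0 ∧ s < nbrs G U c J y),
          π v y ∈ U.filter (fun y => y ≠ v ∧ c y = c x0 ∧ s < nbrs G U c J y) := by
        intro y hy
        obtain ⟨hyU, hyv, hyc, hys⟩ := mem_filter.mp hy
        refine mem_filter.mpr ⟨hI.maps v hv y hyU, hπ y hyv, by rw [hI.col v hv y hyU, hyc], ?_⟩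
        by_contra hlt
        have s1 := st y hyU hyv
        have hyG : G.Adj y v := by
          by_contra h
          rw [if_neg h] at s1
          split_ifs at s1 <;> omega
        rw [if_pos hyG] at s1
        have h5 : nbrs G U c J y = s + 1 := by
          split_ifs at s1 <;> omega
        exact hb y hyU x0 hx0 hx0v hyc rfl hyG.symm (fun h => hG h.symm) h5
      have h6 := mem_iff_of_maps (π v) _ hm x0
      have h7 := h6.mp (mem_filter.mpr ⟨hI.maps v hv x0 hx0, hπ x0 hx0v, hI.col v hv x0 hx0,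
        by omega⟩)
      have h8 := (mem_filter.mp h7).2.2.2
      omega
  intro hN
  apply hN
  have hv' : ∀ y, (H.Adj v (π v y) ↔ G.Adj v y) := by
    intro y
    by_cases hyv : y = v
    · rw [hyv, hH.fix]
      exact ⟨fun h => absurd h H.irrefl, fun h => absurd h G.irrefl⟩
    · by_cases hyU : y ∈ U
      · rw [H.adj_comm, G.adj_comm]
        exact key y hyU hyv
      · exact hI.out v hv v hv y hyU
  refine ⟨π v, fun x y => ?_⟩
  by_cases hx : x = v
  · rw [hx, hH.fix]
    exact hv' y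
  · by_cases hy : y = v
    · rw [hy, hH.fix, H.adj_comm, G.adj_comm]
      exact hv' x
    · exact hH.adj v x y hx hy

/-- adjacency complemented between the colours related by `M` -/
def flip (K : SimpleGraph V) (c : V → ℕ) (M : ℕ → ℕ → Prop) (hM : ∀ i j, M i j → M j i) :
    SimpleGraph V where
  Adj x y := x ≠ y ∧ ¬ (K.Adj x y ↔ M (c x) (c y))
  symm := ⟨fun x y h => ⟨h.1.symm, fun h' => h.2 (by
    rw [K.adj_comm, h']
    exact ⟨hM _ _, hM _ _⟩)⟩⟩
  loopless := ⟨fun _ h => h.1 rfl⟩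

/-- the second criterion -/
theorem fin2 (hH : Hypo G H π) (hI : Inv G H π U c) (W : Finset V) (hW : W ⊆ U)
    (hW1 : W.Nonempty) (hW2 : (U \ W).Nonempty)
    (hom : ∀ x ∈ W, ∀ y ∈ U \ W, ∀ x' ∈ W, ∀ y' ∈ U \ W,
      ((c x = c x' ∧ c y = c y') ∨ (c x = c y' ∧ c y = c x')) → (G.Adj x y ↔ G.Adj x' y')) :
    ¬ NonIso G H := by
  let M : ℕ → ℕ → Prop := fun i j => ∃ x ∈ W, ∃ y ∈ U \ W,
    ((c x = i ∧ c y = j) ∨ (c x = j ∧ c y = i)) ∧ G.Adj x y
  have hM : ∀ i j, M i j → M j i := by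
    rintro i j ⟨x, hx, y, hy, h1, h2⟩
    exact ⟨x, hx, y, hy, h1.symm, h2⟩
  have hcross : ∀ x ∈ W, ∀ y ∈ U \ W, ¬ (flip G c M hM).Adj x y := by
    rintro x hx y hy ⟨_, h⟩
    apply h
    constructor
    · intro h1
      exact ⟨x, hx, y, hy, Or.inl ⟨rfl, rfl⟩, h1⟩
    · rintro ⟨x', hx', y', hy', h1, h2⟩
      rw [hom x hx y hy x' hx' y' hy' (by
        rcases h1 with h1 | h1
        · exact Or.inl ⟨h1.1.symm, h1.2.symm⟩
        · exact Or.inr ⟨h1.2.symm, h1.1.symm⟩)]
      exact h2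
  have hcomps : 2 ≤ (comps (flip G c M hM) U).card := by
    have h1 := comps_union (flip G c M hM) W (U \ W) hcross
    rw [union_sdiff_of_subset hW] at h1
    rw [h1, card_union_of_disjoint (comps_disjoint _ _ _ disjoint_sdiff)]
    obtain ⟨x, hx⟩ := hW1
    obtain ⟨y, hy⟩ := hW2
    have h2 := card_pos.mpr ⟨_, comp_mem_comps (flip G c M hM) W x hx⟩
    have h4 := card_pos.mpr ⟨_, comp_mem_comps (flip G c M hM) (U \ W) y hy⟩
    omega
  obtain ⟨σ, hσ1, hσ2, hσ3⟩ := comp_two (G := flip G c M hM) (H := flip H c M hM) (π := π) U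
    hI.three hH.fix hI.maps (by
      intro v hv x hx y hy hxv hyv
      show (π v x ≠ π v y ∧ ¬ (H.Adj (π v x) (π v y) ↔ M (c (π v x)) (c (π v y)))) ↔
        (x ≠ y ∧ ¬ (G.Adj x y ↔ M (c x) (c y)))
      rw [hI.col v hv x hx, hI.col v hv y hy, hH.adj v x y hxv hyv, (π v).injective.ne_iff])
    (fun x => univ.filter (fun y => c y = c x)) (by
      intro v hv x hx
      rw [hI.col v hv x hx]) hcomps
  have hcσ : ∀ x ∈ U, c (σ x) = c x := by
    intro x hx
    have h1 : x ∈ univ.filter (fun y => c y = c (σ x)) := by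
      rw [hσ3 x hx]
      simp
    exact ((mem_filter.mp h1).2).symm
  have hσU : ∀ x, σ x ∈ U ↔ x ∈ U := fun x => mem_iff_of_maps σ U hσ1 x
  have hadjσ : ∀ x ∈ U, ∀ y ∈ U, (H.Adj (σ x) (σ y) ↔ G.Adj x y) := by
    intro x hx y hy
    by_cases hxy : x = y
    · rw [hxy]
      exact ⟨fun h => absurd h H.irrefl, fun h => absurd h G.irrefl⟩
    · have h1 : (σ x ≠ σ y ∧ ¬ (H.Adj (σ x) (σ y) ↔ M (c (σ x)) (c (σ y)))) ↔
        (x ≠ y ∧ ¬ (G.Adj x y ↔ M (c x) (c y))) := hσ2 x hx y hy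
      rw [hcσ x hx, hcσ y hy, σ.injective.ne_iff] at h1
      by_cases h3 : H.Adj (σ x) (σ y) <;> by_cases h4 : G.Adj x y <;>
        by_cases h5 : M (c x) (c y) <;> simp only [h3, h4, h5, hxy, ne_eq, not_false_eq_true,
          true_and, not_true_eq_false, iff_self, iff_true, iff_false] at h1 ⊢
  obtain ⟨v0, hv0⟩ : U.Nonempty := hW1.mono hW
  have hπU : ∀ x, π v0 x ∈ U ↔ x ∈ U := fun x => mem_iff_of_maps (π v0) U (hI.maps v0 hv0) x
  let τ0 : V → V := fun x => if x ∈ U then σ x else π v0 x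
  have hτ1 : ∀ x ∈ U, τ0 x = σ x := fun x hx => by simp [τ0, hx]
  have hτ2 : ∀ x, x ∉ U → τ0 x = π v0 x := fun x hx => by simp [τ0, hx]
  have hinj : Function.Injective τ0 := by
    intro x y hxy
    by_cases hx : x ∈ U
    · by_cases hy : y ∈ U
      · rw [hτ1 x hx, hτ1 y hy] at hxy
        exact σ.injective hxy
      · rw [hτ1 x hx, hτ2 y hy] at hxy
        exact absurd ((hπU y).mp (hxy ▸ (hσU x).mpr hx)) hy
    · by_cases hy : y ∈ U
      · rw [hτ2 x hx, hτ1 y hy] at hxy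
        exact absurd ((hπU x).mp (hxy ▸ (hσU y).mpr hy)) hx
      · rw [hτ2 x hx, hτ2 y hy] at hxy
        exact (π v0).injective hxy
  intro hN
  apply hN
  refine ⟨Equiv.ofBijective τ0 (Finite.injective_iff_bijective.mp hinj), fun x y => ?_⟩
  rw [Equiv.ofBijective_apply, Equiv.ofBijective_apply]
  have hmix : ∀ x ∈ U, ∀ y, y ∉ U → (H.Adj (τ0 x) (τ0 y) ↔ G.Adj x y) := by
    intro x hx y hy
    rw [hτ1 x hx, hτ2 y hy, hI.out v0 hv0 (σ x) (hσ1 x hx) y hy]
    exact hI.uni _ (hσ1 x hx) x hx (hcσ x hx) y hy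
  by_cases hx : x ∈ U
  · by_cases hy : y ∈ U
    · rw [hτ1 x hx, hτ1 y hy]
      exact hadjσ x hx y hy
    · exact hmix x hx y hy
  · by_cases hy : y ∈ U
    · rw [H.adj_comm, G.adj_comm]
      exact hmix y hy x hx
    · rw [hτ2 x hx, hτ2 y hy]
      exact hH.adj v0 x y (fun e => hx (e ▸ hv0)) (fun e => hy (e ▸ hv0))

theorem main (G : SimpleGraph V) (hV : 3 ≤ Fintype.card V) (U : Finset V) (c : V → ℕ)
    (h : Tame G U c)
    (hfin : (∃ v ∈ U, ∀ i : ℕ, ∃ J : Set ℕ, c v ∈ J ∧ ∀ x ∈ U, ∀ y ∈ U, y ≠ v → c x = i →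
        c y = i → G.Adj v x → ¬ G.Adj v y → nbrs G U c J x ≠ nbrs G U c J y + 1) ∨
      (∃ W ⊆ U, W.Nonempty ∧ (U \ W).Nonempty ∧ ∀ x ∈ W, ∀ y ∈ U \ W, ∀ x' ∈ W, ∀ y' ∈ U \ W,
        ((c x = c x' ∧ c y = c y') ∨ (c x = c y' ∧ c y = c x')) → (G.Adj x y ↔ G.Adj x' y'))) :
    Reconstructible G ∧ Reconstructible Gᶜ := by
  refine rec_of G _ (fun H π hH hN hfin => ?_) hfin
  have hI := inv_of_tame hV hH h
  rcases hfin with ⟨v, hv, hb⟩ | ⟨W, hW, hW1, hW2, hom⟩
  · exact fin1 hH hI v hv hb hN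
  · exact fin2 hH hI W hW hW1 hW2 hom hN

end Pool.Agent.R694.RC
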